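import Pool.Agent.helper88.GR.Spec
import Pool.Agent.helper27.MP.TB

set_option autoImplicit false

open Complex Metric Set Filter Topology MeasureTheory
open MPS (om)
open PPS (pre TT fd)
open XPS (Df er dens tau)

noncomputable section

namespace GR

theorem PHA : PHA_stmt := by
  intro n hn κ u h d hd hu hk
  have hn2 : 2 ≤ n := by omega
  have hprim := MPS.TB_prim n hn2
  have hω1 : ‖om n‖ = 1 := hprim.norm'_eq_one (by omega)
  have hω0 : om n ≠ 0 := by
    intro h0; rw [h0, norm_zero] at hω1; exact zero_ne_one hω1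
  obtain ⟨m, hm, hm1, hm3⟩ : ∃ m : ℕ, (m : ℤ) = d + 2 ∧ 1 ≤ m ∧ m ≤ 3 := by
    rcases hd with rfl | rfl | rfl
    · exact ⟨1, by norm_num, by norm_num, by norm_num⟩
    · exact ⟨2, by norm_num, by norm_num, by norm_num⟩
    · exact ⟨3, by norm_num, by norm_num, by norm_num⟩
  have hsum : ∑ k ∈ Finset.range n, (om n ^ k) ^ m = 0 := by
    rw [MPS.TB_pow_sum n m hn2, if_neg]
    intro hdvd
    have := Nat.le_of_dvd (by omega) hdvd
    omega
  have hterm : ∀ k : ℕ, om n ^ (2 * k) * (κ * (om n ^ k * u) ^ d) = (om n ^ k) ^ m * (κ * u ^ d) := by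
    intro k
    have hne : om n ^ k ≠ 0 := pow_ne_zero _ hω0
    have h1 : (om n ^ k) ^ m = (om n ^ k) ^ (2 : ℕ) * (om n ^ k) ^ d := by
      rw [← zpow_natCast (om n ^ k) m, hm, zpow_add₀ hne, mul_comm]
      norm_cast
    rw [mul_zpow, h1, ← pow_mul, mul_comm 2 k]
    ring
  have hnorm : ∀ k : ℕ, ‖κ * (om n ^ k * u) ^ d‖ = ‖κ * u ^ d‖ := by
    intro k
    rw [mul_zpow, norm_mul, norm_mul, norm_mul, norm_zpow, norm_pow, hω1, one_pow, one_zpow, one_mul]
  set w : ℝ := ‖κ * u ^ d‖ with hw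
  have hA : (n : ℝ) * (3 / 4 * w) ≤ ∑ k ∈ Finset.range n, ‖h k‖ := by
    have : ∀ k ∈ Finset.range n, 3 / 4 * w ≤ ‖h k‖ := by
      intro k hkn
      have h1 := hk k (Finset.mem_range.mp hkn)
      have h2 := norm_sub_norm_le (κ * (om n ^ k * u) ^ d) (h k)
      rw [hnorm k, norm_sub_rev] at h2
      linarith
    have h3 := Finset.card_nsmul_le_sum (Finset.range n) (fun k => ‖h k‖) (3 / 4 * w) this
    rw [Finset.card_range, nsmul_eq_mul] at h3
    exact h3
  have hB : ‖∑ k ∈ Finset.range n, om n ^ (2 * k) * h k‖ ≤ n * (1 / 4 * w) := by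
    have h1 : ∑ k ∈ Finset.range n, om n ^ (2 * k) * h k
        = ∑ k ∈ Finset.range n, om n ^ (2 * k) * (h k - κ * (om n ^ k * u) ^ d) := by
      rw [← sub_eq_zero, ← Finset.sum_sub_distrib]
      have h2 : ∀ k ∈ Finset.range n, om n ^ (2 * k) * h k
          - om n ^ (2 * k) * (h k - κ * (om n ^ k * u) ^ d) = (om n ^ k) ^ m * (κ * u ^ d) := by
        intro k _
        rw [← hterm k]; ring
      rw [Finset.sum_congr rfl h2, ← Finset.sum_mul, hsum, zero_mul]
    rw [h1]
    refine (norm_sum_le _ _).trans ?_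
    have h3 : ∀ k ∈ Finset.range n, ‖om n ^ (2 * k) * (h k - κ * (om n ^ k * u) ^ d)‖ ≤ 1 / 4 * w := by
      intro k hkn
      rw [norm_mul, norm_pow, hω1, one_pow, one_mul]
      exact hk k (Finset.mem_range.mp hkn)
    have h4 := Finset.sum_le_card_nsmul _ _ _ h3
    rw [Finset.card_range, nsmul_eq_mul] at h4
    exact h4
  linarith

end GR
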